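import Pool.Agent.P.MP_ee618e_ag.FP.Main

/-!
No exotic Tate classes when the slopes different from one half live on few places.

`F` is the Frobenius on `V = H^1`, semisimple and killed by the Weil polynomial `P`.  The set `T`
contains the traces `z + q / z` of the roots `z` of `P` of slope different from one half.
-/

set_option autoImplicit false

namespace Pool.Agent.Results.MP_ee618e_ag.FewPlaces

open Polynomial Pool.Agent.P.MP_ee618e_ag

theorem result (p e q : ℕ) [Fact p.Prime] (hq : q = p ^ e) (P : ℤ[X]) (hP : P.Monic)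
    (hW : ∀ z : ℂ, aeval z P = 0 → ‖z‖ ^ 2 = q)
    (E N : Type*) [Field E] [Field N] [NumberField N] [Algebra E N] [IsGalois E N]
    (ι : N →+* PadicAlgCl p) (T : Set N) (hT : ∀ σ : N ≃ₐ[E] N, ∀ a ∈ T, σ a ∈ T)
    (roots : ∀ z : PadicAlgCl p, aeval z P = 0 → ‖z‖ ^ 2 ≠ ‖(q : PadicAlgCl p)‖ →
      z + q / z ∈ ι '' T)
    (above : ∀ a ∈ T, ∀ τ : N →+* PadicAlgCl p, ‖(q : PadicAlgCl p)‖ < ‖τ a‖ ^ 2 →
      ∀ x : E, τ (algebraMap E N x) = ι (algebraMap E N x))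
    (slope : ∀ a ∈ T, ∀ b ∈ T, IsSquare ((a ^ 2 - 4 * q) * (b ^ 2 - 4 * q)) →
      ‖(q : PadicAlgCl p)‖ < ‖ι a‖ ^ 2 → ‖ι b‖ = ‖ι a‖)
    (few : ∀ a ∈ T,
      {w : N → ℝ | ∃ τ : N →+* PadicAlgCl p, ‖(q : PadicAlgCl p)‖ < ‖τ a‖ ^ 2 ∧
        w = fun x => ‖τ x‖}.encard ≤ 2 ∨
      {b ∈ T | IsSquare ((a ^ 2 - 4 * q) * (b ^ 2 - 4 * q))}.encard ≤ 3)
    (K V : Type*) [Field K] [CharZero K] [AddCommGroup V] [Module K V] [FiniteDimensional K V]
    (F : V →ₗ[K] V) (hF : Module.End.IsSemisimple F) (hFP : aeval F P = 0) (i : ℕ) :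
    TateClasses F (q : K) i ⊆ Algebra.adjoin K (TateClasses F (q : K) 1) := by
  subst hq
  rw [Nat.cast_pow]
  exact FP.main ⟨hT, roots, above, slope, few⟩ hP (by simpa using hW) hF hFP i

end Pool.Agent.Results.MP_ee618e_ag.FewPlaces
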