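import Pool.Agent.P.MP_ee618e_ag.Main

/-!
Tate classes on abelian fivefolds over finite fields.

`P` is the characteristic polynomial of the Frobenius `F` on `V = H^1`, diagonalised over a field
`K` of characteristic zero, and the ground field is large enough for the eigenvalues to generate a
torsion-free group.  All Tate classes in the exterior algebra of `V` are generated by the Tate
classes of codimension one and the Tate classes of codimension two coming from fourfold factors,
if and only if `P` does not have the exceptional shape.
-/

set_option autoImplicit false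

namespace Pool.Agent.Results.MP_ee618e_ag.Fivefolds

open Polynomial Pool.Agent.P.MP_ee618e_ag

theorem result (p a : ℕ) [Fact p.Prime] (ha : 0 < a) (P : ℤ[X]) (hP : IsAVPoly p a P)
    (K V : Type*) [Field K] [CharZero K] [AddCommGroup V] [Module K V]
    (b : Module.Basis (Fin 10) K V) (α : Fin 10 → K) (F : V →ₗ[K] V)
    (hF : ∀ j, F (b j) = α j • b j)
    (hα : P.map (Int.castRingHom K) = ∏ j, (X - C (α j)))
    (htf : ∀ x ∈ Submonoid.closure (Set.range α), ∀ y ∈ Submonoid.closure (Set.range α),
      ∀ n : ℕ, 0 < n → x ^ n = y ^ n → x = y) :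
    (∀ i : ℕ, TateClasses F ((p : K) ^ a) i ⊆
      Algebra.adjoin K (TateClasses F ((p : K) ^ a) 1 ∪
        TateClasses F ((p : K) ^ a) 2 ∩ FourfoldClasses p a b α)) ↔
      ¬ IsExceptional ((p : ℤ) ^ a) P :=
  ⟨fun h hE => not_generated ha hP hF hα htf hE (h 2), fun hE => generated ha hP hF hα htf hE⟩

end Pool.Agent.Results.MP_ee618e_ag.Fivefolds
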