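import Pool.Agent.P.MP_ee618e_ag.TO.Sq

/-!
No exotic Tate classes when a half system of odd size of Frobenius eigenvalues carries a
transitive commuting family of Galois automorphisms.

`F` is the Frobenius on `V = H^1`, semisimple and killed by the Weil polynomial `P`, which splits
in the Galois number field `L`.  The set `Φ` contains one root from each pair `z`, `q / z` of a
block of roots, and all roots outside the block have slope one half.

The hand-in is `result`.  The three theorems after it are special cases, recorded to show when the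
hypotheses hold.
-/

set_option autoImplicit false

namespace Pool.Agent.Results.MP_ee618e_ag.OddAbelian

open Polynomial Pool.Agent.P.MP_ee618e_ag

theorem result (p e q : ℕ) [Fact p.Prime] (hq : q = p ^ e) (P : ℤ[X]) (hP : P.Monic)
    (hW : ∀ z : ℂ, aeval z P = 0 → ‖z‖ ^ 2 = q)
    (L : Type*) [Field L] [NumberField L] [IsGalois ℚ L]
    (hL : (P.map (Int.castRingHom L)).Splits) (φ : L →+* PadicAlgCl p)
    (Φ : Set L) (roots : ∀ z ∈ Φ, aeval z P = 0) (odd : Odd Φ.ncard) (half : ∀ z ∈ Φ, q / z ∉ Φ)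
    (out : ∀ z : L, aeval z P = 0 → z ∉ Φ → q / z ∉ Φ → ‖φ z‖ ^ 2 = ‖(q : PadicAlgCl p)‖)
    (block : ∀ τ : L ≃ₐ[ℚ] L, ∀ z ∈ Φ, ∀ w ∈ Φ, τ z ∈ Φ → τ w ∈ Φ ∨ q / τ w ∈ Φ)
    (H : Set (L ≃ₐ[ℚ] L)) (pres : ∀ a ∈ H, ∀ z ∈ Φ, a z ∈ Φ)
    (comm : ∀ a ∈ H, ∀ b ∈ H, ∀ z ∈ Φ, a (b z) = b (a z))
    (trans : ∀ z ∈ Φ, ∀ w ∈ Φ, ∃ a ∈ H, a z = w)
    (prim : ∀ z ∈ Φ, ∀ w ∈ Φ, (∀ τ : L ≃ₐ[ℚ] L, τ z ∈ Φ ↔ τ w ∈ Φ) →
      ∀ τ : L ≃ₐ[ℚ] L, ‖φ (τ z)‖ = ‖φ (τ w)‖)
    (K V : Type*) [Field K] [CharZero K] [AddCommGroup V] [Module K V] [FiniteDimensional K V]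
    (F : V →ₗ[K] V) (hF : Module.End.IsSemisimple F) (hFP : aeval F P = 0) (i : ℕ) :
    TateClasses F (q : K) i ⊆ Algebra.adjoin K (TateClasses F (q : K) 1) := by
  subst hq
  rw [Nat.cast_pow]
  exact TO.main ⟨roots, odd, half, out, block, pres, comm, trans, prim⟩ hP
    (by simpa using hW) hL hF hFP i

/-- Special case: an abelian group of odd order is transitive on the pairs of roots of `h`, every
proper subfield of the field generated by a root is totally real, `P` is supersingular, and the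
slopes of `h` are arbitrary. -/
theorem no_cm_subfield (p e q : ℕ) [Fact p.Prime] (hq : q = p ^ e) (h P : ℤ[X])
    (hP : (h * P).Monic) (hW : ∀ z : ℂ, aeval z (h * P) = 0 → ‖z‖ ^ 2 = q)
    (ss : ∀ z : PadicAlgCl p, aeval z P = 0 → ‖z‖ ^ 2 = ‖(q : PadicAlgCl p)‖)
    (L : Type*) [Field L] [NumberField L] [IsGalois ℚ L]
    (hL : ((h * P).map (Int.castRingHom L)).Splits) (π : L) (hπ : aeval π h = 0) (hr : π ^ 2 ≠ q)
    (H : Subgroup (L ≃ₐ[ℚ] L)) (odd : Odd (Nat.card H)) (comm : ∀ a ∈ H, ∀ b ∈ H, a * b = b * a)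
    (cover : ∀ w : L, aeval w h = 0 → ∃ a ∈ H, a π = w ∨ a π = q / w)
    (real : ∀ E : IntermediateField ℚ L, E < IntermediateField.adjoin ℚ {π} →
      ∀ x ∈ E, ∀ ψ : L →+* ℂ, (ψ x).im = 0)
    (K V : Type*) [Field K] [CharZero K] [AddCommGroup V] [Module K V] [FiniteDimensional K V]
    (F : V →ₗ[K] V) (hF : Module.End.IsSemisimple F) (hFP : aeval F (h * P) = 0) (i : ℕ) :
    TateClasses F (q : K) i ⊆ Algebra.adjoin K (TateClasses F (q : K) 1) :=
  have H := TO.hyp_no_cm (φ := (IsAlgClosed.lift : L →ₐ[ℚ] PadicAlgCl p))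
    (hq ▸ pow_ne_zero e (Fact.out : p.Prime).ne_zero)
    (fun z hz => hW z (by rw [map_mul, hz, zero_mul])) ss hπ hr odd comm cover real
  result p e q hq _ hP hW L hL _ _ H.roots H.odd H.half H.out H.block _ H.pres H.comm H.tr H.prim
    K V F hF hFP i

/-- Special case: `h` is irreducible of degree `2 l ^ 2` with `l` an odd prime, every proper
subfield of the field generated by a root is totally real, and the slopes of `h` are arbitrary. -/
theorem prime_square (p e q l : ℕ) [Fact p.Prime] (hq : q = p ^ e) (hl : l.Prime) (l2 : l ≠ 2)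
    (h P : ℤ[X]) (hh : h.Monic) (hP : P.Monic) (irr : Irreducible h)
    (deg : h.natDegree = 2 * l ^ 2) (hW : ∀ z : ℂ, aeval z (h * P) = 0 → ‖z‖ ^ 2 = q)
    (ss : ∀ z : PadicAlgCl p, aeval z P = 0 → ‖z‖ ^ 2 = ‖(q : PadicAlgCl p)‖)
    (L : Type*) [Field L] [NumberField L] [IsGalois ℚ L]
    (hL : ((h * P).map (Int.castRingHom L)).Splits) (π : L) (hπ : aeval π h = 0)
    (real : ∀ E : IntermediateField ℚ L, E < IntermediateField.adjoin ℚ {π} →
      ∀ x ∈ E, ∀ ψ : L →+* ℂ, (ψ x).im = 0)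
    (K V : Type*) [Field K] [CharZero K] [AddCommGroup V] [Module K V] [FiniteDimensional K V]
    (F : V →ₗ[K] V) (hF : Module.End.IsSemisimple F) (hFP : aeval F (h * P) = 0) (i : ℕ) :
    TateClasses F (q : K) i ⊆ Algebra.adjoin K (TateClasses F (q : K) 1) := by
  obtain ⟨Φ, H, T⟩ := TO.hyp_sq (φ := (IsAlgClosed.lift : L →ₐ[ℚ] PadicAlgCl p))
    (hq ▸ pow_ne_zero e (Fact.out : p.Prime).ne_zero) hl l2 hh irr deg
    (fun z hz => hW z (by rw [map_mul, hz, zero_mul])) ss hπ real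
  exact result p e q hq _ (hh.mul hP) hW L hL _ _ T.roots T.odd T.half T.out T.block _ T.pres
    T.comm T.tr T.prim K V F hF hFP i

/-- Special case read off from the Newton polygon: `h` has `n` roots of valuation `a / n` below
half the valuation of `q` and none at half, with `n` odd and prime to `a` and `p`. -/
theorem tame (p e q n a : ℕ) [Fact p.Prime] (hq : q = p ^ e) (h P : ℤ[X]) (hh : h.Monic)
    (hP : P.Monic) (hW : ∀ z : ℂ, aeval z (h * P) = 0 → ‖z‖ ^ 2 = q)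
    (ss : ∀ z : PadicAlgCl p, aeval z P = 0 → ‖z‖ ^ 2 = ‖(q : PadicAlgCl p)‖)
    (ns : ∀ z : PadicAlgCl p, aeval z h = 0 → ‖z‖ ^ 2 ≠ ‖(q : PadicAlgCl p)‖)
    (odd : Odd n) (hn : ¬ p ∣ n) (ha : n.Coprime a)
    (card : {z : PadicAlgCl p | aeval z h = 0 ∧ ‖(q : PadicAlgCl p)‖ < ‖z‖ ^ 2}.ncard = n)
    (val : ∀ z : PadicAlgCl p, aeval z h = 0 → ‖(q : PadicAlgCl p)‖ < ‖z‖ ^ 2 →
      ‖z‖ ^ n = ‖(p : PadicAlgCl p)‖ ^ a)
    (K V : Type*) [Field K] [CharZero K] [AddCommGroup V] [Module K V] [FiniteDimensional K V]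
    (F : V →ₗ[K] V) (hF : Module.End.IsSemisimple F) (hFP : aeval F (h * P) = 0) (i : ℕ) :
    TateClasses F (q : K) i ⊆ Algebra.adjoin K (TateClasses F (q : K) 1) := by
  obtain ⟨L, _, _, _, hL⟩ := TO.exists_split (h * P)
  have h1 : q ≠ 0 := hq ▸ pow_ne_zero e (Fact.out : p.Prime).ne_zero
  have h2 : (h.map (Int.castRingHom L)).Splits :=
    hL.of_dvd ((hh.mul hP).map _).ne_zero (Polynomial.map_dvd _ (dvd_mul_right h P))
  let φ : L →ₐ[ℚ] PadicAlgCl p := IsAlgClosed.lift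
  obtain ⟨Φ, H, T⟩ := TO.hyp_tame h1 hh (fun z hz => hW z (by rw [map_mul, hz, zero_mul])) h2
    φ.toRingHom ss ns odd hn ha card val
  exact result p e q hq _ (hh.mul hP) hW L hL _ _ T.roots T.odd T.half T.out T.block _ T.pres
    T.comm T.tr T.prim K V F hF hFP i

end Pool.Agent.Results.MP_ee618e_ag.OddAbelian
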