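import Pool.Agent.P.MP_ee618e_ag.PP.Main

/-!
No exotic Tate classes when the signed sums of the centred slopes on a block of prime power size
do not vanish modulo that prime.

`F` is the Frobenius on `V = H^1`, semisimple and killed by `h * P`, where `h` is the irreducible
Weil polynomial of a simple factor and `P` is supersingular.  The integer `c z` is the centred
slope of the root `z`, in the unit given by `t`.
-/

set_option autoImplicit false

namespace Pool.Agent.Results.MP_ee618e_ag.PrimePower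

open Polynomial Pool.Agent.P.MP_ee618e_ag

theorem result (p e q l m : ℕ) [Fact p.Prime] (hq : q = p ^ e) (hl : l.Prime) (h P : ℤ[X])
    (hh : h.Monic) (hP : P.Monic) (hirr : Irreducible h)
    (hW : ∀ z : ℂ, aeval z (h * P) = 0 → ‖z‖ ^ 2 = q)
    (hss : ∀ z : PadicAlgCl p, aeval z P = 0 → ‖z‖ ^ 2 = ‖(q : PadicAlgCl p)‖)
    (E : Type*) [Field E] [NumberField E] (ι : E →+* PadicAlgCl p) (f : E[X])
    (hf : Irreducible f) (hdeg : f.natDegree = 2 * l ^ m) (hfh : f ∣ h.map (Int.castRingHom E))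
    (hbar : ∀ z : PadicAlgCl p, f.eval₂ ι z = 0 → f.eval₂ ι (q / z) = 0)
    (t : ℝ) (ht : 1 < t) (c : PadicAlgCl p → ℤ)
    (slope : ∀ z : PadicAlgCl p, aeval z h = 0 → ‖z‖ ^ 2 = ‖(q : PadicAlgCl p)‖ * t ^ c z)
    (out : ∀ z : PadicAlgCl p, aeval z h = 0 → f.eval₂ ι z ≠ 0 → (l : ℤ) ∣ c z)
    (half : ∀ Φ : Finset (PadicAlgCl p), Φ.card = l ^ m → (∀ z ∈ Φ, f.eval₂ ι z = 0) →
      (∀ z ∈ Φ, ∀ w ∈ Φ, z * w ≠ q) → ¬ (l : ℤ) ∣ ∑ z ∈ Φ, c z)
    (K V : Type*) [Field K] [CharZero K] [AddCommGroup V] [Module K V] [FiniteDimensional K V]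
    (F : V →ₗ[K] V) (hF : Module.End.IsSemisimple F) (hFP : aeval F (h * P) = 0) (i : ℕ) :
    TateClasses F (q : K) i ⊆ Algebra.adjoin K (TateClasses F (q : K) 1) := by
  subst hq
  rw [Nat.cast_pow]
  exact PP.main ⟨hl, hh, hirr, hss, hf, hdeg, hfh, hbar, ht, slope, out, half⟩ hP
    (by simpa using hW) hF hFP i

end Pool.Agent.Results.MP_ee618e_ag.PrimePower
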